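import Pool.Agent.helper50.PHN.Spec

set_option autoImplicit false

namespace Pool.Agent.PHN

open Finset

theorem ABB_le_lp (m p : ℕ) (hp : p ∈ m.primeFactors) : p ≤ lp m := by
  unfold lp
  exact Finset.le_sup (f := id) hp

theorem ABB_lp_lt (n k : ℕ) (h : bl n < k + 1) : lp n.totient < 2 ^ (k + 1) := by
  unfold bl at h
  exact Nat.lt_pow_of_log_lt (by norm_num) h

theorem ABB_smooth (n k : ℕ) (hn : 1 ≤ n) (h : bl n < k + 1) :
    n.totient ∈ (2 ^ (k + 1)).smoothNumbers := by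
  have h1 := ABB_lp_lt n k h
  have h0 : n.totient ≠ 0 := (Nat.totient_pos.mpr hn).ne'
  rw [Nat.mem_smoothNumbers']
  intro p hp hpd
  exact lt_of_le_of_lt (ABB_le_lp _ p (Nat.mem_primeFactors.mpr ⟨hp, hpd, h0⟩)) h1

theorem ABB_gg (n k : ℕ) (h : bl n < k) : gg dl (2 ^ k) n.totient = 1 := by
  unfold gg
  have h1 : lp n.totient < 2 ^ k := by
    unfold bl at h
    exact Nat.lt_pow_of_log_lt (by norm_num) h
  rw [Finset.filter_eq_empty_iff.mpr, Finset.prod_empty]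
  intro p hp hle
  exact absurd (lt_of_le_of_lt (ABB_le_lp _ p hp) h1) (not_lt.mpr hle)

theorem ABB (hRNK : RNK_stmt) : ABB_stmt := by
  intro k₀ ε hε
  rcases k₀ with _ | k
  · refine ⟨0, fun F hF => ?_⟩
    have hFe : F = ∅ := by
      rw [Finset.eq_empty_iff_forall_notMem]
      intro n hn
      exact absurd (hF n hn).2 (Nat.not_lt_zero _)
    rw [hFe, Finset.sum_empty]
    exact hε.le
  · obtain ⟨C, hC, hR⟩ := hRNK
    set η : ℝ := 1 / (2 * ((k : ℝ) + 1)) with hη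
    have hη0 : 0 < η := by rw [hη]; positivity
    set E : ℝ := Real.exp (C * ((k : ℝ) + 1) ^ 6) with hE
    have hE0 : 0 < E := Real.exp_pos _
    -- choose N
    obtain ⟨N, hN⟩ := exists_nat_ge ((E / ε) ^ (1 / η) + 1)
    have hNpos : (1 : ℝ) ≤ N := by
      have : 0 ≤ (E / ε) ^ (1 / η) := Real.rpow_nonneg (by positivity) _
      linarith
    have hNη : E / ε ≤ (N : ℝ) ^ η := by
      have h1 : (E / ε) ^ (1 / η) ≤ (N : ℝ) := by linarith
      have h2 : ((E / ε) ^ (1 / η)) ^ η ≤ (N : ℝ) ^ η :=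
        Real.rpow_le_rpow (Real.rpow_nonneg (by positivity) _) h1 hη0.le
      rw [← Real.rpow_mul (by positivity), one_div_mul_cancel hη0.ne', Real.rpow_one] at h2
      exact h2
    refine ⟨N, fun F hF => ?_⟩
    have hNη0 : 0 < (N : ℝ) ^ η := Real.rpow_pos_of_pos (by linarith) _
    have hsum := hR k F (fun n hn => ⟨by have := (hF n hn).1; omega,
      ABB_smooth n k (by have := (hF n hn).1; omega) (hF n hn).2⟩)
    rw [← hη, ← hE] at hsum
    have hterm : ∀ n ∈ F, gg dl (2 ^ (k + 1)) n.totient / n.totient ≤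
        ((n : ℝ) ^ η / n.totient) * ((N : ℝ) ^ η)⁻¹ := by
      intro n hn
      obtain ⟨hNn, hbl⟩ := hF n hn
      rw [ABB_gg n (k + 1) hbl]
      have htot : (0 : ℝ) ≤ (n.totient : ℝ) := Nat.cast_nonneg _
      have h1 : (N : ℝ) ^ η ≤ (n : ℝ) ^ η :=
        Real.rpow_le_rpow (by linarith) (by exact_mod_cast hNn.le) hη0.le
      have h2 : 1 ≤ (n : ℝ) ^ η * ((N : ℝ) ^ η)⁻¹ := by
        rw [← div_eq_mul_inv, le_div_iff₀ hNη0, one_mul]
        exact h1
      calc (1 : ℝ) / n.totient ≤ ((n : ℝ) ^ η * ((N : ℝ) ^ η)⁻¹) / n.totient :=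
            div_le_div_of_nonneg_right h2 htot
        _ = ((n : ℝ) ^ η / n.totient) * ((N : ℝ) ^ η)⁻¹ := by ring
    calc ∑ n ∈ F, gg dl (2 ^ (k + 1)) n.totient / n.totient
        ≤ ∑ n ∈ F, ((n : ℝ) ^ η / n.totient) * ((N : ℝ) ^ η)⁻¹ := Finset.sum_le_sum hterm
      _ = (∑ n ∈ F, (n : ℝ) ^ η / n.totient) * ((N : ℝ) ^ η)⁻¹ := by rw [Finset.sum_mul]
      _ ≤ E * ((N : ℝ) ^ η)⁻¹ :=
          mul_le_mul_of_nonneg_right hsum (inv_nonneg.mpr hNη0.le)
      _ ≤ ε := by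
          rw [← div_eq_mul_inv, div_le_iff₀ hNη0]
          rw [div_le_iff₀ hε] at hNη
          linarith

end Pool.Agent.PHN
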