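import Pool.Agent.helper50.PHN.Spec

set_option autoImplicit false

namespace Pool.Agent.PHN

open Finset

theorem C1B_smooth (n k : ℕ) (hn : 1 ≤ n) (h : bl n = k) :
    n.totient ∈ (2 ^ (k + 1)).smoothNumbers := by
  have h1 : lp n.totient < 2 ^ (k + 1) := by
    unfold bl at h
    exact Nat.lt_pow_of_log_lt (by norm_num) (by omega)
  have h0 : n.totient ≠ 0 := (Nat.totient_pos.mpr hn).ne'
  rw [Nat.mem_smoothNumbers']
  intro p hp hpd
  refine lt_of_le_of_lt ?_ h1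
  unfold lp
  exact Finset.le_sup (f := id) (Nat.mem_primeFactors.mpr ⟨hp, hpd, h0⟩)

theorem C1B_num (C x : ℝ) (hC : 1 ≤ C) (hx : 4 * (C + 2) ≤ x) :
    Real.exp (-(x ^ 7 / 4)) * Real.exp (C * x ^ 6) ≤ 1 / x ^ 2 := by
  have hx0 : 0 < x := by linarith
  have hx1 : 1 ≤ x := by linarith
  rw [← Real.exp_add]
  have hlog : Real.log x ≤ x ^ 6 := by
    have h1 : Real.log x ≤ x - 1 := Real.log_le_sub_one_of_pos hx0
    have h2 : x ≤ x ^ 6 := le_self_pow₀ hx1 (by norm_num)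
    linarith
  have h6 : 0 ≤ x ^ 6 := by positivity
  have h7 : 4 * (C + 2) * x ^ 6 ≤ x ^ 7 := by
    have := mul_le_mul_of_nonneg_right hx h6
    calc 4 * (C + 2) * x ^ 6 ≤ x * x ^ 6 := this
      _ = x ^ 7 := by ring
  have h8 : 1 / x ^ 2 = Real.exp (-(2 * Real.log x)) := by
    rw [Real.exp_neg, two_mul, Real.exp_add, Real.exp_log hx0]
    rw [one_div, pow_two]
  rw [h8]
  apply Real.exp_le_exp.mpr
  nlinarith

theorem C1B (hRNK : RNK_stmt) (hGBB : GBB_stmt) : C1B_stmt := by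
  obtain ⟨C, hC, hR⟩ := hRNK
  obtain ⟨k₁, hG⟩ := hGBB
  obtain ⟨k₂, hk₂⟩ := exists_nat_ge (4 * (C + 2))
  refine ⟨max k₁ k₂, fun k hk q0 F hF => ?_⟩
  have hk1 : k₁ ≤ k := le_trans (le_max_left _ _) hk
  have hk2 : k₂ ≤ k := le_trans (le_max_right _ _) hk
  have hk2' : 4 * (C + 2) ≤ (k : ℝ) + 1 := by
    have : (k₂ : ℝ) ≤ k := by exact_mod_cast hk2
    linarith
  set x : ℝ := (k : ℝ) + 1 with hx
  have hx0 : 0 < x := by rw [hx]; positivity
  have hsum := hR k F (fun n hn => ⟨(hF n hn).1, C1B_smooth n k (hF n hn).1 (hF n hn).2.1⟩)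
  rw [← hx] at hsum
  have hterm : ∀ n ∈ F, gg dl q0 n.totient / n.totient ≤
      ((n : ℝ) ^ (1 / (2 * x)) / n.totient) * Real.exp (-(x ^ 7 / 4)) := by
    intro n hn
    obtain ⟨hn1, -, hY⟩ := hF n hn
    have hn0 : (0 : ℝ) < n := by exact_mod_cast hn1
    have hg := (hG k hk1 q0 n.totient (Nat.totient_pos.mpr hn1)).2 n hY (Nat.totient_le n)
    rw [← hx] at hg
    have htot : (0 : ℝ) ≤ (n.totient : ℝ) := Nat.cast_nonneg _
    have h1 : (n : ℝ) ^ (1 / (4 * x)) ≤ (n : ℝ) ^ (1 / (2 * x)) * Real.exp (-(x ^ 7 / 4)) := by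
      have h2 : (n : ℝ) ^ (1 / (2 * x)) = (n : ℝ) ^ (1 / (4 * x)) * (n : ℝ) ^ (1 / (4 * x)) := by
        rw [← Real.rpow_add hn0]
        congr 1
        field_simp
        norm_num
      have h3 : Real.exp (x ^ 7 / 4) ≤ (n : ℝ) ^ (1 / (4 * x)) := by
        have h4 : (YY k) ^ (1 / (4 * x)) ≤ (n : ℝ) ^ (1 / (4 * x)) :=
          Real.rpow_le_rpow (by unfold YY; exact (Real.exp_pos _).le) hY.le (by positivity)
        refine le_trans (le_of_eq ?_) h4
        unfold YY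
        rw [← hx, ← Real.exp_mul]
        congr 1
        field_simp
      have h5 : 0 < (n : ℝ) ^ (1 / (4 * x)) := Real.rpow_pos_of_pos hn0 _
      rw [h2, Real.exp_neg, mul_assoc]
      refine le_mul_of_one_le_right h5.le ?_
      rw [← div_eq_mul_inv, le_div_iff₀ (Real.exp_pos _), one_mul]
      exact h3
    calc gg dl q0 n.totient / n.totient
        ≤ ((n : ℝ) ^ (1 / (2 * x)) * Real.exp (-(x ^ 7 / 4))) / n.totient :=
          div_le_div_of_nonneg_right (le_trans hg h1) htot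
      _ = _ := by ring
  calc ∑ n ∈ F, gg dl q0 n.totient / n.totient
      ≤ ∑ n ∈ F, ((n : ℝ) ^ (1 / (2 * x)) / n.totient) * Real.exp (-(x ^ 7 / 4)) :=
        Finset.sum_le_sum hterm
    _ = (∑ n ∈ F, (n : ℝ) ^ (1 / (2 * x)) / n.totient) * Real.exp (-(x ^ 7 / 4)) := by
        rw [Finset.sum_mul]
    _ ≤ Real.exp (C * x ^ 6) * Real.exp (-(x ^ 7 / 4)) :=
        mul_le_mul_of_nonneg_right hsum (Real.exp_pos _).le
    _ ≤ 1 / x ^ 2 := by
        rw [mul_comm]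
        exact C1B_num C x hC hk2'

end Pool.Agent.PHN
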